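import Pool.Agent.Helper32.EP.Final

/-!
# The e-positive inclusions for rectangular operators at `t = 1 + r` (MP_36e183_co, Q1)

All definitions of the statement are in `Pool/Agent/Helper32/EP/Defs.lean`.
-/

set_option autoImplicit false

namespace Pool.Agent.Results.MP_36e183_co.EPositiveInclusions

open Pool.Agent.EP MvPolynomial

/-- Over `ℚ(q, r)` with `t = 1 + r`: the homomorphisms `Θ_{a,b}` exist and are unique, and both
inclusions of Q1 hold for all `m, n ≥ 1`. -/
theorem result :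
    (∀ a b : ℕ, 1 ≤ a → 1 ≤ b → Nat.Coprime a b →
      ∃! Θ : Lam KQ →ₐ[KQ] Module.End KQ (Lam KQ), IsTheta qv (1 + rv) a b Θ) ∧
    (∀ m n : ℕ, 1 ≤ m → 1 ≤ n →
      EPos qv rv (emn qv (1 + rv) m n - C (qv ^ alpha m n) * emn qv (1 + rv) (m - 1) n) ∧
      EPos qv rv
        (C ((-(qv * (1 + rv))) ^ (1 - (Nat.gcd m n : ℤ))) * hmn qv (1 + rv) m n -
          C (qv ^ ((alpha m n : ℤ) - (Nat.gcd m n : ℤ) + 1)) * emn qv (1 + rv) (m - 1) n)) :=
  main

end Pool.Agent.Results.MP_36e183_co.EPositiveInclusions
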